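import Mathlib
import Pool.Agent.H22.Lev4

set_option autoImplicit false
open MeasureTheory ProbabilityTheory Set Filter Topology
open scoped NNReal
open Pool.Agent.H22.Hunt Pool.Agent.H22.Lev

namespace Pool.Agent.Results.MP_4b85d8_pr.Counter

theorem result : ∃ (Ω : Type) (_ : MeasurableSpace Ω) (P : Measure Ω) (_ : IsProbabilityMeasure P)
    (X : ℝ≥0 → Ω → ℝ) (μ : Measure ℝ), IsLevy P X ∧ (∀ᵐ ω ∂P, Monotone fun t => X t ω) ∧
    μ (Iic 0) = 0 ∧ ∫⁻ x, ENNReal.ofReal (min 1 x) ∂μ < ⊤ ∧ μ (Ioi 0) = ⊤ ∧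
    (∀ (t : ℝ≥0) (l : ℝ), 0 ≤ l → ∫ ω, Real.exp (-l * X t ω) ∂P =
      Real.exp (-t * ∫ x, (1 - Real.exp (-l * x)) ∂μ)) ∧
    ¬ HuntH P X := by
  let y : I → ℝ := fun i => xx 13 i.1
  have hy : ∀ i, 0 < y i := fun i => xx_pos _ _
  have h : OK cc mm y 0 := ok (g := 13) (by norm_num) (fun i => (abs_of_pos (hy i)).le) fun i => by
    have h1 : (1 : ℝ) ≤ 2 ^ i.1 := one_le_pow₀ (by norm_num)
    have h2 := Q_pos i.1
    rw [Pi.zero_apply, sub_zero, abs_of_nonneg (mul_nonneg (hy i).le (cc i).coe_nonneg)]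
    refine xx_mul _ ((mul_le_mul_of_nonneg_right (cc_le i).2 h2.le).trans ?_)
    nlinarith [pow_pos h2 13]
  refine ⟨Om, inferInstance, PP cc, inferInstance, Z y 0, mu y, levy h, ?_,
    mu_null y measurableSet_Iic fun i => (hy i).not_ge, ?_, ?_, fun t l hl => ?_,
    nh (g := 13) le_rfl 1 (by simp) h (by simp [y]) (by simp) (fun k => ?_) _
      (.of_forall fun _ _ => rfl)⟩
  · filter_upwards [summ h] with ω hω s t hst
    refine (hω s).tsum_le_tsum (fun i => ?_) (hω t)
    simpa [f] using mul_le_mul_of_nonneg_left (N_mono i ω (NNReal.coe_le_coe.2 hst)) (hy i).le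
  · rw [mu_lint]
    refine Summable.tsum_ofReal_lt_top (h.h2.of_abs.congr fun i => ?_)
    rw [min_eq_right (xx_le _ _), Pi.zero_apply, sub_zero, mul_comm]
  · rw [mu, Measure.sum_apply _ measurableSet_Ioi]
    refine top_of fun i => ?_
    have : (1 : ℝ≥0) ≤ cc i := NNReal.coe_le_coe.1
      ((one_le_pow₀ (by linarith [Q_two i.1])).trans (cc_le i).1)
    simpa [hy i] using this
  · have h1 := one h 0 t zero_le (-l) (fun i => by simpa using mul_nonneg hl (hy i).le) (by simp)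
    apply Complex.ofReal_injective
    rw [← integral_complex_ofReal, mu, integral_sum_dirac (by simp)]
    simp only [Z_zero, sub_zero, NNReal.coe_zero, Ψ, Pi.zero_apply, Complex.ofReal_zero,
      mul_zero] at h1
    push_cast
    rw [h1, neg_mul, ← mul_neg, ← tsum_neg]
    congr 3 with i
    simp
    ring
  · have h1 := cc_le (k, true)
    have h2 := cc_le (k, false)
    have h3 := Q_two k
    have h4 : (Q k : ℝ) ^ 10 ≤ Q k ^ 12 := pow_le_pow_right₀ (by linarith) (by norm_num)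
    push_cast
    constructor <;> nlinarith [h1.1, h1.2, h2.1, h2.2, pow_pos (Q_pos k) 12]

end Pool.Agent.Results.MP_4b85d8_pr.Counter
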